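import Mathlib
import Pool.Agent.MP_61d686_an.Defs
import Pool.Agent.MP_61d686_an.Example

open Pool.Agent.MP_61d686_an

theorem Pool.Agent.Results.MP_61d686_an.Q1Disproof.result :
    ∃ x : ℕ → ℝ, (∀ n, 0 < x n) ∧ Antitone x ∧ Summable x ∧
      IsCantorval (achievementSet x) ∧ IsMinimalRep x ∧ {n | x n < tail x (n + 1)}.Infinite :=
  main
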